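import Pool.Agent.Q138.PS.TF

set_option autoImplicit false

/-!
# Harmonic sums over values and over arguments of a dilated polynomial
-/

namespace Pool.Agent.Q252.LR

open Finset MeasureTheory Filter Topology
open Pool.Agent.Q138.PS

/-- **one block** -/
theorem block {q : ℕ} (hq : 2 ≤ q) {P : Polynomial ℝ} {H : ℝ} (hH : 1 ≤ H) (hP : PH q H P) {α : ℝ} (hα : 0 < α)
    {η : ℝ} (hη0 : 0 ≤ η) (hη : η ≤ 1) {n : ℕ} (hn1 : 4 * (q * H) ≤ n) (hα1 : 8 ≤ α * n) (X : ℕ → Prop)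
    [DecidablePred X]
    (hs : |(((Ioc n (2 * n)).filter fun m : ℕ => X ⌊α * P.eval (m : ℝ)⌋₊).card : ℝ) -
        ∫ x in (n : ℝ)..((2 * n : ℕ) : ℝ), ind X ⌊α * P.eval x⌋₊| ≤ ((2 * n : ℕ) : ℝ) ^ (1 - η)) :
    ∑ m ∈ (Ioc ⌊α * P.eval (n : ℝ)⌋₊ ⌊α * P.eval ((2 * n : ℕ) : ℝ)⌋₊).filter (fun m => X m), (1 : ℝ) / m ≤
      q * 2 ^ (q + 3) * (∑ m ∈ (Ioc n (2 * n)).filter (fun m : ℕ => X ⌊α * P.eval (m : ℝ)⌋₊), (1 : ℝ) / m
        + 2 * (n : ℝ) ^ (-η)) := by
  have hq1 : (2 : ℝ) ≤ q := by exact_mod_cast hq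
  have hn4 : (4 : ℝ) ≤ n := by
    have : (1 : ℝ) ≤ q * H := by nlinarith
    linarith
  have hn0 : (0 : ℝ) < n := by linarith
  have hnn : n ≤ 2 * n := by omega
  have h4H : 4 * H ≤ (n : ℝ) := by nlinarith
  have hlow := set_low (by omega) hH hP hα hn1 hnn X
  obtain ⟨hv1, hv2⟩ := poly_up2 hP.1 hP.2.1 hH hP.2.2 h4H
  have ha1 : 1 ≤ P.leadingCoeff := hP.2.1
  set a : ℝ := P.leadingCoeff with ha
  set V1 : ℝ := α * P.eval (n : ℝ) with hV1
  set V2 : ℝ := α * P.eval ((2 * n : ℕ) : ℝ) with hV2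
  set m0 : ℕ := ⌊V1⌋₊ with hm0
  set m1 : ℕ := ⌊V2⌋₊ with hm1
  set I : ℝ := ∫ x in (n : ℝ)..((2 * n : ℕ) : ℝ), ind X ⌊α * P.eval x⌋₊ with hI
  set S : Finset ℕ := (Ioc n (2 * n)).filter (fun m : ℕ => X ⌊α * P.eval (m : ℝ)⌋₊) with hS
  -- the lower end
  have hnq : (n : ℝ) ^ q = (n : ℝ) ^ (q - 1) * n := by
    rw [← pow_succ]
    congr 1
    omega
  have hnq1 : (n : ℝ) ≤ (n : ℝ) ^ (q - 1) := by
    calc (n : ℝ) = (n : ℝ) ^ 1 := (pow_one _).symm
      _ ≤ _ := pow_le_pow_right₀ (by linarith) (by omega)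
  set L : ℝ := α * a * (n : ℝ) ^ q / 4 with hL
  have hVL : 2 * L ≤ V1 := by
    rw [hV1, hL]
    calc 2 * (α * a * (n : ℝ) ^ q / 4) = α * (a * (n : ℝ) ^ q / 2) := by ring
      _ ≤ _ := by gcongr
  have hL2 : 2 * (n : ℝ) ≤ L := by
    rw [hL, hnq]
    have h1 : 8 * (n : ℝ) ≤ α * n * (n : ℝ) ^ (q - 1) := by
      calc 8 * (n : ℝ) ≤ (α * n) * n := by gcongr
        _ ≤ α * n * (n : ℝ) ^ (q - 1) := by gcongr
    have h2 : α * n * (n : ℝ) ^ (q - 1) ≤ α * a * ((n : ℝ) ^ (q - 1) * n) := by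
      calc α * n * (n : ℝ) ^ (q - 1) = α * 1 * ((n : ℝ) ^ (q - 1) * n) := by ring
        _ ≤ _ := by gcongr
    linarith
  have hL0 : 0 < L := by linarith
  have hm0L : L ≤ m0 := by
    have := Nat.lt_floor_add_one V1
    rw [← hm0] at this
    linarith
  -- the sum over the values
  have h1 : ∑ m ∈ (Ioc m0 m1).filter (fun m => X m), (1 : ℝ) / m ≤
      (1 / L) * (((Ico ⌈V1⌉₊ m1).filter fun m => X m).card : ℝ) + 1 / (2 * n) := by
    have hsub : (Ioc m0 m1).filter (fun m => X m) ⊆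
        (Ico ⌈V1⌉₊ m1).filter (fun m => X m) ∪ (Ioc m0 m1).filter (fun m => m = m1) := by
      intro m hm
      rw [mem_filter, mem_Ioc] at hm
      rw [mem_union, mem_filter, mem_filter, mem_Ico, mem_Ioc]
      by_cases h : m = m1
      · right
        exact ⟨hm.1, h⟩
      · left
        refine ⟨⟨?_, by omega⟩, hm.2⟩
        have h3 : ⌈V1⌉₊ ≤ m0 + 1 := Nat.ceil_le_floor_add_one V1
        omega
    have hb : ∀ m ∈ Ioc m0 m1, (1 : ℝ) / m ≤ 1 / L := by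
      intro m hm
      rw [mem_Ioc] at hm
      have : (m0 : ℝ) ≤ m := by exact_mod_cast hm.1.le
      apply one_div_le_one_div_of_le hL0
      linarith
    calc ∑ m ∈ (Ioc m0 m1).filter (fun m => X m), (1 : ℝ) / m ≤
        ∑ m ∈ ((Ico ⌈V1⌉₊ m1).filter (fun m => X m) ∪ (Ioc m0 m1).filter (fun m => m = m1)), (1 : ℝ) / m :=
          sum_le_sum_of_subset_of_nonneg hsub (fun _ _ _ => by positivity)
      _ ≤ ∑ m ∈ (Ico ⌈V1⌉₊ m1).filter (fun m => X m), (1 : ℝ) / m +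
          ∑ m ∈ (Ioc m0 m1).filter (fun m => m = m1), (1 : ℝ) / m := by
          rw [← sum_union_inter]
          have : 0 ≤ ∑ m ∈ ((Ico ⌈V1⌉₊ m1).filter (fun m => X m) ∩ (Ioc m0 m1).filter (fun m => m = m1)),
            (1 : ℝ) / m := sum_nonneg fun _ _ => by positivity
          linarith
      _ ≤ _ := by
          gcongr
          · rw [mul_comm, ← nsmul_eq_mul]
            apply sum_le_card_nsmul
            intro m hm
            rw [mem_filter, mem_Ico] at hm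
            have h3 : V1 ≤ m := Nat.ceil_le.1 hm.1.1
            apply one_div_le_one_div_of_le hL0
            linarith
          · by_cases hlt : m0 < m1
            · have e : (Ioc m0 m1).filter (fun m => m = m1) = {m1} := by
                ext m
                rw [mem_filter, mem_Ioc, mem_singleton]
                constructor
                · rintro ⟨_, h⟩
                  exact h
                · rintro rfl
                  exact ⟨⟨hlt, le_rfl⟩, rfl⟩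
              rw [e, sum_singleton]
              have h3 : (m0 : ℝ) ≤ m1 := by exact_mod_cast hlt.le
              apply one_div_le_one_div_of_le (by positivity)
              linarith
            · have e : (Ioc m0 m1).filter (fun m => m = m1) = ∅ := by
                rw [Ioc_eq_empty (by omega)]
                rfl
              rw [e, sum_empty]
              positivity
  -- the sum over the arguments
  have h2 : (S.card : ℝ) ≤ 2 * n * ∑ m ∈ S, (1 : ℝ) / m := by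
    rw [mul_sum]
    calc (S.card : ℝ) = ∑ m ∈ S, (1 : ℝ) := by simp
      _ ≤ _ := by
          apply sum_le_sum
          intro m hm
          rw [hS, mem_filter, mem_Ioc] at hm
          have h3 : (m : ℝ) ≤ 2 * n := by exact_mod_cast hm.1.2
          have h4 : (0 : ℝ) < m := by
            have : (n : ℝ) < m := by exact_mod_cast hm.1.1
            linarith
          rw [mul_one_div, le_div_iff₀ h4]
          linarith
  have h5 : I ≤ 2 * n * (∑ m ∈ S, (1 : ℝ) / m) + 2 * n * (n : ℝ) ^ (-η) := by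
    have h6 := (abs_le.1 hs).1
    have h7 : ((2 * n : ℕ) : ℝ) ^ (1 - η) ≤ 2 * n * (n : ℝ) ^ (-η) := by
      have e : ((2 * n : ℕ) : ℝ) = 2 * n := by push_cast; ring
      rw [e, sub_eq_add_neg, Real.rpow_add (by positivity), Real.rpow_one]
      exact mul_le_mul_of_nonneg_left (Real.rpow_le_rpow_of_nonpos hn0 (by linarith) (by linarith)) (by positivity)
    linarith
  have h8 : 1 / (2 * (n : ℝ)) ≤ (n : ℝ) ^ (-η) := by
    have : (n : ℝ) ^ (-1 : ℝ) ≤ (n : ℝ) ^ (-η) := Real.rpow_le_rpow_of_exponent_le (by linarith) (by linarith)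
    rw [Real.rpow_neg_one] at this
    refine le_trans ?_ this
    rw [one_div]
    gcongr
    linarith
  have h9 : (1 / L) * (((Ico ⌈V1⌉₊ m1).filter fun m => X m).card : ℝ) ≤
      q * 2 ^ (q + 3) * (∑ m ∈ S, (1 : ℝ) / m + (n : ℝ) ^ (-η)) := by
    have h10 : (1 / L) * (((Ico ⌈V1⌉₊ m1).filter fun m => X m).card : ℝ) ≤
        (1 / L) * (α * (2 * (q * a) * ((2 * n : ℕ) : ℝ) ^ (q - 1)) *
          (2 * n * (∑ m ∈ S, (1 : ℝ) / m) + 2 * n * (n : ℝ) ^ (-η))) := by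
      gcongr
      refine hlow.trans ?_
      gcongr
    refine h10.trans (le_of_eq ?_)
    have e : ((2 * n : ℕ) : ℝ) ^ (q - 1) = 2 ^ (q - 1) * (n : ℝ) ^ (q - 1) := by
      push_cast
      rw [mul_pow]
    have e2 : (2 : ℝ) ^ (q + 3) = 2 ^ (q - 1) * 16 := by
      have : q + 3 = (q - 1) + 4 := by omega
      rw [this, pow_add]
      norm_num
    rw [e, e2, hL, hnq]
    have : (0 : ℝ) < (n : ℝ) ^ (q - 1) := by positivity
    field_simp
    ring
  have hbig : (1 : ℝ) ≤ q * 2 ^ (q + 3) := by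
    have : (1 : ℝ) ≤ 2 ^ (q + 3) := one_le_pow₀ (by norm_num)
    nlinarith
  have hpos : 0 ≤ (n : ℝ) ^ (-η) := by positivity
  calc _ ≤ (1 / L) * (((Ico ⌈V1⌉₊ m1).filter fun m => X m).card : ℝ) + 1 / (2 * n) := h1
    _ ≤ q * 2 ^ (q + 3) * (∑ m ∈ S, (1 : ℝ) / m + (n : ℝ) ^ (-η)) + (n : ℝ) ^ (-η) := add_le_add h9 h8
    _ ≤ q * 2 ^ (q + 3) * (∑ m ∈ S, (1 : ℝ) / m + (n : ℝ) ^ (-η)) + q * 2 ^ (q + 3) * (n : ℝ) ^ (-η) := by
        have := mul_le_mul_of_nonneg_right hbig hpos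
        linarith
    _ = _ := by ring

/-- **many blocks** -/
theorem chain {q : ℕ} (hq : 2 ≤ q) {P : Polynomial ℝ} {H : ℝ} (hH : 1 ≤ H) (hP : PH q H P) {α : ℝ} (hα : 0 < α)
    {η : ℝ} (hη0 : 0 ≤ η) (hη : η ≤ 1) {z : ℕ} (hz1 : 4 * (q * H) ≤ z) (hα1 : 8 ≤ α * z) (X : ℕ → Prop)
    [DecidablePred X]
    (hs : ∀ n : ℕ, z ≤ n → |(((Ioc n (2 * n)).filter fun m : ℕ => X ⌊α * P.eval (m : ℝ)⌋₊).card : ℝ) -
        ∫ x in (n : ℝ)..((2 * n : ℕ) : ℝ), ind X ⌊α * P.eval x⌋₊| ≤ ((2 * n : ℕ) : ℝ) ^ (1 - η)) (J : ℕ) :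
    ∑ m ∈ (Ioc ⌊α * P.eval (z : ℝ)⌋₊ ⌊α * P.eval ((2 ^ J * z : ℕ) : ℝ)⌋₊).filter (fun m => X m), (1 : ℝ) / m ≤
      q * 2 ^ (q + 3) * (∑ m ∈ (Ioc z (2 ^ J * z)).filter (fun m : ℕ => X ⌊α * P.eval (m : ℝ)⌋₊), (1 : ℝ) / m
        + J * (2 * (z : ℝ) ^ (-η))) := by
  induction J with
  | zero => simp
  | succ J ih =>
    have hz0 : (0 : ℝ) < z := by
      have hq1 : (2 : ℝ) ≤ q := by exact_mod_cast hq
      have : (1 : ℝ) ≤ q * H := by nlinarith
      linarith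
    have hzJ : z ≤ 2 ^ J * z := Nat.le_mul_of_pos_left z (by positivity)
    have hzJr : (z : ℝ) ≤ ((2 ^ J * z : ℕ) : ℝ) := by exact_mod_cast hzJ
    have hb := block hq hH hP hα hη0 hη (n := 2 ^ J * z) (hz1.trans hzJr)
      (hα1.trans (by gcongr)) X (hs _ hzJ)
    have e2 : 2 * (2 ^ J * z) = 2 ^ (J + 1) * z := by ring
    rw [e2] at hb
    set A := ⌊α * P.eval (z : ℝ)⌋₊ with hA
    set B := ⌊α * P.eval ((2 ^ J * z : ℕ) : ℝ)⌋₊ with hB
    set C := ⌊α * P.eval ((2 ^ (J + 1) * z : ℕ) : ℝ)⌋₊ with hC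
    have hsub : (Ioc A C).filter (fun m => X m) ⊆
        (Ioc A B).filter (fun m => X m) ∪ (Ioc B C).filter (fun m => X m) := by
      intro m hm
      rw [mem_filter, mem_Ioc] at hm
      rw [mem_union, mem_filter, mem_filter, mem_Ioc, mem_Ioc]
      by_cases h : m ≤ B
      · left
        exact ⟨⟨hm.1.1, h⟩, hm.2⟩
      · right
        exact ⟨⟨by omega, hm.1.2⟩, hm.2⟩
    have h1 : ∑ m ∈ (Ioc A C).filter (fun m => X m), (1 : ℝ) / m ≤
        ∑ m ∈ (Ioc A B).filter (fun m => X m), (1 : ℝ) / m + ∑ m ∈ (Ioc B C).filter (fun m => X m), (1 : ℝ) / m := by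
      refine (sum_le_sum_of_subset_of_nonneg hsub (fun _ _ _ => by positivity)).trans ?_
      rw [← sum_union_inter]
      have : 0 ≤ ∑ m ∈ ((Ioc A B).filter (fun m => X m) ∩ (Ioc B C).filter (fun m => X m)),
        (1 : ℝ) / m := sum_nonneg fun _ _ => by positivity
      linarith
    have h2 : ∑ m ∈ (Ioc z (2 ^ (J + 1) * z)).filter (fun m : ℕ => X ⌊α * P.eval (m : ℝ)⌋₊), (1 : ℝ) / m =
        ∑ m ∈ (Ioc z (2 ^ J * z)).filter (fun m : ℕ => X ⌊α * P.eval (m : ℝ)⌋₊), (1 : ℝ) / m +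
        ∑ m ∈ (Ioc (2 ^ J * z) (2 ^ (J + 1) * z)).filter (fun m : ℕ => X ⌊α * P.eval (m : ℝ)⌋₊), (1 : ℝ) / m := by
      rw [← sum_union]
      · congr 1
        rw [← filter_union, Ioc_union_Ioc_eq_Ioc hzJ (by rw [← e2]; omega)]
      · apply disjoint_filter_filter
        rw [disjoint_left]
        intro m hm hm2
        rw [mem_Ioc] at hm hm2
        omega
    have h3 : (((2 ^ J * z : ℕ) : ℝ)) ^ (-η) ≤ (z : ℝ) ^ (-η) :=
      Real.rpow_le_rpow_of_nonpos hz0 hzJr (by linarith)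
    have hbig : (0 : ℝ) ≤ q * 2 ^ (q + 3) := by positivity
    rw [h2]
    have h4 := mul_le_mul_of_nonneg_left h3 hbig
    push_cast
    push_cast at hb ih h1 h4
    nlinarith [hb, ih, h1, h4]

end Pool.Agent.Q252.LR
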