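import Pool.Agent.Q252.LR.A
import Pool.Agent.Y353.PS.Page

set_option autoImplicit false

/-!
# Primes in residue classes of the form `⌊α P(n)⌋`: a bound of the type of Linnik
-/

namespace Pool.Agent.Q252.LR

open Finset MeasureTheory Filter Topology
open Pool.Agent.Q138.PS
open Pool.Agent.Q138.GS (pw lg1)

/-- the property -/
def XX (i : ℕ × ℕ) (m : ℕ) : Prop := m.Prime ∧ m ≡ i.2 [MOD i.1]

/-- the index set -/
noncomputable def Om (η : ℝ) (N : ℕ) : Finset (ℕ × ℕ) := (Iic ⌊(N : ℝ) ^ η⌋₊) ×ˢ (Iic ⌊(N : ℝ) ^ η⌋₊)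

theorem Om_mono (η : ℝ) (hη : 0 < η) : Monotone (Om η) := by
  intro N M h
  have h1 : ⌊(N : ℝ) ^ η⌋₊ ≤ ⌊(M : ℝ) ^ η⌋₊ := by
    apply Nat.floor_le_floor
    have : (N : ℝ) ≤ M := by exact_mod_cast h
    gcongr
  exact product_subset_product (Iic_subset_Iic.2 h1) (Iic_subset_Iic.2 h1)

theorem Om_card (η : ℝ) (hη : 0 < η) : ∀ᶠ N : ℕ in atTop, ((Om η N).card : ℝ) ≤ (N : ℝ) ^ (3 * η) := by
  filter_upwards [pw 4 0 hη, eventually_ge_atTop 1] with N h1 hN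
  rw [pow_zero, mul_one] at h1
  have hN0 : (0 : ℝ) < N := by exact_mod_cast hN
  set x : ℝ := (N : ℝ) ^ η with hx
  have hx0 : 0 ≤ x := by linarith
  have h2 : ((Om η N).card : ℝ) = ((⌊x⌋₊ : ℝ) + 1) * ((⌊x⌋₊ : ℝ) + 1) := by
    unfold Om
    rw [card_product, Nat.card_Iic]
    push_cast
    rfl
  have h3 : ((⌊x⌋₊ : ℝ) + 1) ≤ 2 * x := by
    have := Nat.floor_le hx0
    linarith
  have h4 : (N : ℝ) ^ (3 * η) = x * x * x := by
    rw [hx, ← Real.rpow_add hN0, ← Real.rpow_add hN0]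
    congr 1
    ring
  rw [h2, h4]
  calc ((⌊x⌋₊ : ℝ) + 1) * ((⌊x⌋₊ : ℝ) + 1) ≤ (2 * x) * (2 * x) := by gcongr
    _ = 4 * (x * x) := by ring
    _ ≤ x * (x * x) := by gcongr
    _ = _ := by ring

open Classical in
/-- **the theorem** -/
theorem main (q : ℕ) (hq : 2 ≤ q) : ∃ (K : ℕ) (c : ℝ), 0 < c ∧ ∃ E : Set ℝ,
    dimH E ≤ ENNReal.ofReal (q / (q + kp q)) ∧ ∀ α : ℝ, 0 < α → α ∉ E → ∃ η : ℝ, 0 < η ∧
      ∀ B : ℕ, ∀ᶠ z : ℕ in atTop, ∃ q₁ : ℕ, (Real.log z) ^ B < (q₁ : ℝ) ∧ ∀ d a : ℕ, 0 < d → (d : ℝ) ≤ (z : ℝ) ^ η →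
      ¬ q₁ ∣ d → a.Coprime d → ∀ P : Polynomial ℤ, P.natDegree = q → 0 < P.leadingCoeff →
      (∀ j, |((P.coeff j : ℤ) : ℝ)| ≤ (z : ℝ) ^ η) →
      c / (d.totient : ℝ) ≤
        ∑ n ∈ (Ioc z (z ^ K)).filter (fun n : ℕ => (⌊α * (P.map (Int.castRingHom ℝ)).eval (n : ℝ)⌋₊).Prime ∧
          ⌊α * (P.map (Int.castRingHom ℝ)).eval (n : ℝ)⌋₊ ≡ a [MOD d]), (1 : ℝ) / n := by
  obtain ⟨K0, c0, hK0, hc0, hpage⟩ := Pool.Agent.Y353.PS.page
  obtain ⟨E, hE, hgood⟩ := set_sample q hq XX 3 (by norm_num) Om Om_mono Om_card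
  have hq0 : (2 : ℝ) ≤ q := by exact_mod_cast hq
  set A : ℝ := q * 2 ^ (q + 3) with hA
  have hA0 : 0 < A := by positivity
  refine ⟨2 * ((q + 2) * K0) + 1, c0 / (2 * A), by positivity, E, hE, fun α hα hαE => ?_⟩
  obtain ⟨η0, hη0, hev⟩ := hgood α hα hαE
  set η1 : ℝ := min η0 (1 / 8) with hη1
  have hη1p : 0 < η1 := by positivity
  have hη1a : η1 ≤ η0 := min_le_left _ _
  have hη1b : η1 ≤ 1 / 8 := min_le_right _ _
  refine ⟨η1 / 2, by positivity, fun B => ?_⟩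
  obtain ⟨z0, hz0⟩ := hpage B
  filter_upwards [eventually_forall_ge_atTop.2 hev, eventually_ge_atTop z0, eventually_ge_atTop 16,
    pw (8 * q) 0 (show (0 : ℝ) < 1 / 2 by norm_num),
    pw (16 * (((q : ℝ) + 2) * K0) * A / c0) 1 (show 0 < η1 / 2 by positivity), lg1,
    tendsto_natCast_atTop_atTop.eventually_ge_atTop (8 / α + 2 * α : ℝ)] with z h1 h2 h16 h3 h4 hl h5
  rw [pow_zero, mul_one] at h3
  rw [pow_one] at h4
  have hz1 : (1 : ℝ) ≤ z := by exact_mod_cast (by omega : 1 ≤ z)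
  have hz16 : (16 : ℝ) ≤ z := by exact_mod_cast h16
  have hzp : (0 : ℝ) < z := by linarith
  set Z : ℕ := z ^ (q + 2) with hZ
  have hzZ : z ≤ Z := by
    calc z = z ^ 1 := (pow_one z).symm
      _ ≤ _ := Nat.pow_le_pow_right (by omega) (by omega)
  obtain ⟨q₁, hq₁, hP⟩ := hz0 Z (h2.trans hzZ)
  refine ⟨q₁, lt_of_le_of_lt ?_ hq₁, ?_⟩
  · have : Real.log z ≤ Real.log Z := Real.log_le_log hzp (by exact_mod_cast hzZ)
    have h0 : 0 ≤ Real.log z := by linarith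
    gcongr
  intro d a hd hdz hnd had P hdeg hlead hco
  set R := P.map (Int.castRingHom ℝ) with hR
  set H : ℝ := (z : ℝ) ^ (η1 / 2) with hH
  have hH1 : 1 ≤ H := Real.one_le_rpow hz1 (by positivity)
  have hPH : PH q H R := int_PH hdeg hlead hco
  have hHs : H ≤ (z : ℝ) ^ (1 / 2 : ℝ) := Real.rpow_le_rpow_of_exponent_le hz1 (by linarith)
  have hsqrt : (z : ℝ) ^ (1 / 2 : ℝ) * (z : ℝ) ^ (1 / 2 : ℝ) = z := by
    rw [← Real.rpow_add hzp]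
    norm_num
  have hs1 : 1 ≤ (z : ℝ) ^ (1 / 2 : ℝ) := Real.one_le_rpow hz1 (by norm_num)
  have h4qH : 4 * (q * H) ≤ (z : ℝ) := by
    calc 4 * (q * H) ≤ 8 * q * H := by nlinarith
      _ ≤ (z : ℝ) ^ (1 / 2 : ℝ) * (z : ℝ) ^ (1 / 2 : ℝ) := by gcongr
      _ = z := hsqrt
  have h4H : 4 * H ≤ (z : ℝ) := by nlinarith
  have hα8 : 8 ≤ α * z := by
    have : 8 / α ≤ z := by
      have : 0 < 2 * α := by positivity
      linarith
    rw [div_le_iff₀ hα] at this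
    linarith
  have hα2 : 2 * α ≤ z := by
    have : 0 < 8 / α := by positivity
    linarith
  -- the index
  have hidx : ∀ N : ℕ, z ≤ N → ((d, a % d) : ℕ × ℕ) ∈ Om η0 N := by
    intro N hN
    have hN1 : (1 : ℝ) ≤ N := hz1.trans (by exact_mod_cast hN)
    have hzN : (z : ℝ) ≤ N := by exact_mod_cast hN
    have h6 : (d : ℝ) ≤ (N : ℝ) ^ η0 := by
      refine hdz.trans ?_
      calc (z : ℝ) ^ (η1 / 2) ≤ (N : ℝ) ^ (η1 / 2) := by gcongr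
        _ ≤ (N : ℝ) ^ η0 := Real.rpow_le_rpow_of_exponent_le hN1 (by linarith)
    have h7 : d ≤ ⌊(N : ℝ) ^ η0⌋₊ := Nat.le_floor h6
    have h8 : a % d < d := Nat.mod_lt _ hd
    unfold Om
    rw [mem_product, mem_Iic, mem_Iic]
    exact ⟨h7, by simp only; omega⟩
  have hs : ∀ n : ℕ, z ≤ n →
      |(((Ioc n (2 * n)).filter fun m : ℕ => XX (d, a % d) ⌊α * R.eval (m : ℝ)⌋₊).card : ℝ) -
        ∫ x in (n : ℝ)..((2 * n : ℕ) : ℝ), ind (XX (d, a % d)) ⌊α * R.eval x⌋₊| ≤ ((2 * n : ℕ) : ℝ) ^ (1 - η1) := by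
    intro n hn
    have hzn : z ≤ 2 * n := by omega
    have hznr : (z : ℝ) ≤ ((2 * n : ℕ) : ℝ) := by exact_mod_cast hzn
    have hn1 : (1 : ℝ) ≤ ((2 * n : ℕ) : ℝ) := hz1.trans hznr
    refine (h1 (2 * n) hzn _ (hidx _ hzn) P hdeg hlead (fun j => (hco j).trans ?_) n (2 * n) (by omega)
      le_rfl).trans ?_
    · calc (z : ℝ) ^ (η1 / 2) ≤ ((2 * n : ℕ) : ℝ) ^ (η1 / 2) := by gcongr
        _ ≤ ((2 * n : ℕ) : ℝ) ^ η0 := Real.rpow_le_rpow_of_exponent_le hn1 (by linarith)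
    · exact Real.rpow_le_rpow_of_exponent_le hn1 (by linarith)
  set T : ℕ := Nat.log 2 z + 1 with hT
  set J : ℕ := (q + 2) * K0 * T with hJ
  have hch := chain hq hH1 hPH hα hη1p.le (by linarith) h4qH hα8 (XX (d, a % d)) hs J
  -- the range of the arguments
  have hT1 : z < 2 ^ T := Nat.lt_pow_succ_log_self (by norm_num) z
  have hT2 : 2 ^ T ≤ z ^ 2 := by
    have h6 : 2 ^ Nat.log 2 z ≤ z := Nat.pow_log_le_self 2 (by omega)
    rw [hT, pow_succ]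
    nlinarith
  have hJ1 : z ^ ((q + 2) * K0) ≤ 2 ^ J := by
    rw [hJ, mul_comm ((q + 2) * K0) T, pow_mul 2 T]
    exact Nat.pow_le_pow_left hT1.le _
  have hJ2 : 2 ^ J * z ≤ z ^ (2 * ((q + 2) * K0) + 1) := by
    rw [pow_succ, pow_mul z 2, hJ, mul_comm ((q + 2) * K0) T, pow_mul 2 T]
    exact Nat.mul_le_mul_right z (Nat.pow_le_pow_left hT2 _)
  -- the range of the values
  obtain ⟨-, hvu⟩ := poly_up2 hPH.1 hPH.2.1 hH1 hPH.2.2 h4H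
  have ha1 : 1 ≤ R.leadingCoeff := hPH.2.1
  have haH : R.leadingCoeff ≤ H := by
    have := (le_abs_self _).trans (hPH.2.2 q)
    rwa [← hPH.1] at this
  have haz : R.leadingCoeff ≤ z := by linarith
  have hlo : ⌊α * R.eval (z : ℝ)⌋₊ ≤ Z := by
    apply Nat.floor_le_of_le
    calc α * R.eval (z : ℝ) ≤ α * (2 * R.leadingCoeff * (z : ℝ) ^ q) := by gcongr
      _ = 2 * α * R.leadingCoeff * (z : ℝ) ^ q := by ring
      _ ≤ z * z * (z : ℝ) ^ q := by gcongr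
      _ = _ := by rw [hZ]; push_cast; ring
  have hzJ : (z : ℝ) ≤ ((2 ^ J * z : ℕ) : ℝ) := by
    have : z ≤ 2 ^ J * z := Nat.le_mul_of_pos_left z (by positivity)
    exact_mod_cast this
  obtain ⟨hvl, -⟩ := poly_up2 hPH.1 hPH.2.1 hH1 hPH.2.2 (h4H.trans hzJ)
  have hhi : Z ^ K0 ≤ ⌊α * R.eval ((2 ^ J * z : ℕ) : ℝ)⌋₊ := by
    apply Nat.le_floor
    have h6 : ((Z ^ K0 : ℕ) : ℝ) ≤ ((2 ^ J : ℕ) : ℝ) := by
      have : Z ^ K0 ≤ 2 ^ J := by rw [hZ, ← pow_mul]; exact hJ1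
      exact_mod_cast this
    have h7 : (1 : ℝ) ≤ ((2 ^ J * z : ℕ) : ℝ) := hz1.trans hzJ
    calc ((Z ^ K0 : ℕ) : ℝ) ≤ ((2 ^ J : ℕ) : ℝ) := h6
      _ ≤ α * z * ((2 ^ J : ℕ) : ℝ) / 2 := by
          have h8 : (0 : ℝ) ≤ ((2 ^ J : ℕ) : ℝ) := by positivity
          nlinarith
      _ = α * ((2 ^ J * z : ℕ) : ℝ) / 2 := by push_cast; ring
      _ ≤ α * ((2 ^ J * z : ℕ) : ℝ) ^ q / 2 := by
          have h9 : ((2 ^ J * z : ℕ) : ℝ) ≤ ((2 ^ J * z : ℕ) : ℝ) ^ q := le_self_pow₀ h7 (by omega)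
          gcongr
      _ = α * (1 * ((2 ^ J * z : ℕ) : ℝ) ^ q / 2) := by ring
      _ ≤ α * (R.leadingCoeff * ((2 ^ J * z : ℕ) : ℝ) ^ q / 2) := by gcongr
      _ ≤ _ := by gcongr
  -- the primes
  have hd16 : d ^ 16 ≤ Z := by
    have h6 : ((d ^ 16 : ℕ) : ℝ) ≤ (z : ℝ) ^ (1 : ℝ) := by
      push_cast
      calc (d : ℝ) ^ 16 ≤ ((z : ℝ) ^ (η1 / 2)) ^ 16 := by gcongr
        _ = (z : ℝ) ^ (η1 / 2 * 16) := by
            rw [← Real.rpow_natCast, ← Real.rpow_mul hzp.le]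
            norm_num
        _ ≤ (z : ℝ) ^ (1 : ℝ) := Real.rpow_le_rpow_of_exponent_le hz1 (by linarith)
    rw [Real.rpow_one] at h6
    have h7 : d ^ 16 ≤ z := by exact_mod_cast h6
    omega
  have hpr := hP d a hd hd16 hnd had
  have hmid : ∑ p ∈ (Ioc Z (Z ^ K0)).filter (fun p => p.Prime ∧ p ≡ a [MOD d]), (1 : ℝ) / p ≤
      ∑ m ∈ (Ioc ⌊α * R.eval (z : ℝ)⌋₊ ⌊α * R.eval ((2 ^ J * z : ℕ) : ℝ)⌋₊).filter
        (fun m => XX (d, a % d) m), (1 : ℝ) / m := by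
    apply sum_le_sum_of_subset_of_nonneg
    · intro p hp
      rw [mem_filter, mem_Ioc] at hp ⊢
      refine ⟨⟨by omega, by omega⟩, hp.2.1, ?_⟩
      exact hp.2.2.trans (Nat.mod_modEq a d).symm
    · intro _ _ _
      positivity
  have hfin : ∑ m ∈ (Ioc z (2 ^ J * z)).filter (fun m : ℕ => XX (d, a % d) ⌊α * R.eval (m : ℝ)⌋₊), (1 : ℝ) / m ≤
      ∑ n ∈ (Ioc z (z ^ (2 * ((q + 2) * K0) + 1))).filter (fun n : ℕ => (⌊α * R.eval (n : ℝ)⌋₊).Prime ∧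
          ⌊α * R.eval (n : ℝ)⌋₊ ≡ a [MOD d]), (1 : ℝ) / n := by
    apply sum_le_sum_of_subset_of_nonneg
    · intro n hn
      rw [mem_filter, mem_Ioc] at hn ⊢
      exact ⟨⟨hn.1.1, hn.1.2.trans hJ2⟩, hn.2.1, hn.2.2.trans (Nat.mod_modEq a d)⟩
    · intro _ _ _
      positivity
  -- the error term
  have hφ0 : (0 : ℝ) < d.totient := by exact_mod_cast Nat.totient_pos.2 hd
  have hφ : (d.totient : ℝ) ≤ (z : ℝ) ^ (η1 / 2) := by
    refine le_trans ?_ hdz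
    exact_mod_cast Nat.totient_le d
  have hTl : (T : ℝ) ≤ 4 * Real.log z := by
    have h6 : (Nat.log 2 z : ℝ) * Real.log 2 ≤ Real.log z := by
      have h7 : ((2 ^ Nat.log 2 z : ℕ) : ℝ) ≤ z := by
        exact_mod_cast Nat.pow_log_le_self 2 (by omega)
      have h8 := Real.log_le_log (by positivity) h7
      push_cast at h8
      rwa [Real.log_pow] at h8
    have h7 : (0.6931471803 : ℝ) < Real.log 2 := Real.log_two_gt_d9
    have h8 : (0 : ℝ) ≤ (Nat.log 2 z : ℝ) := by positivity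
    rw [hT]
    push_cast
    nlinarith
  have herr : A * (J * (2 * (z : ℝ) ^ (-η1))) ≤ c0 / 2 / d.totient := by
    rw [le_div_iff₀ hφ0]
    have e1 : (z : ℝ) ^ (-η1) * (z : ℝ) ^ (η1 / 2) * (z : ℝ) ^ (η1 / 2) = 1 := by
      rw [← Real.rpow_add hzp, ← Real.rpow_add hzp]
      have : -η1 + η1 / 2 + η1 / 2 = 0 := by ring
      rw [this, Real.rpow_zero]
    have e2 : (J : ℝ) ≤ ((q : ℝ) + 2) * K0 * (4 * Real.log z) := by
      rw [hJ]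
      push_cast
      gcongr
    have e3 : A * (((q : ℝ) + 2) * K0 * (4 * Real.log z) * 2) ≤ c0 / 2 * (z : ℝ) ^ (η1 / 2) := by
      rw [div_mul_eq_mul_div, div_le_iff₀ hc0] at h4
      nlinarith
    have e4 : 0 ≤ (z : ℝ) ^ (-η1) * (z : ℝ) ^ (η1 / 2) := by positivity
    calc A * (J * (2 * (z : ℝ) ^ (-η1))) * d.totient ≤
        A * (((q : ℝ) + 2) * K0 * (4 * Real.log z) * (2 * (z : ℝ) ^ (-η1))) * (z : ℝ) ^ (η1 / 2) := by gcongr
      _ = A * (((q : ℝ) + 2) * K0 * (4 * Real.log z) * 2) * ((z : ℝ) ^ (-η1) * (z : ℝ) ^ (η1 / 2)) := by ring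
      _ ≤ c0 / 2 * (z : ℝ) ^ (η1 / 2) * ((z : ℝ) ^ (-η1) * (z : ℝ) ^ (η1 / 2)) := by gcongr
      _ = c0 / 2 * ((z : ℝ) ^ (-η1) * (z : ℝ) ^ (η1 / 2) * (z : ℝ) ^ (η1 / 2)) := by ring
      _ = c0 / 2 := by rw [e1, mul_one]
  have htot : c0 / d.totient ≤ A * (∑ n ∈ (Ioc z (z ^ (2 * ((q + 2) * K0) + 1))).filter
      (fun n : ℕ => (⌊α * R.eval (n : ℝ)⌋₊).Prime ∧ ⌊α * R.eval (n : ℝ)⌋₊ ≡ a [MOD d]), (1 : ℝ) / n) +
      c0 / 2 / d.totient := by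
    refine (hpr.trans (hmid.trans hch)).trans ?_
    rw [mul_add]
    exact add_le_add (mul_le_mul_of_nonneg_left hfin hA0.le) herr
  have e5 : c0 / (d.totient : ℝ) = c0 / 2 / d.totient + c0 / 2 / d.totient := by ring
  rw [e5] at htot
  have e6 : c0 / (2 * A) / (d.totient : ℝ) = c0 / 2 / d.totient / A := by
    field_simp
  rw [e6, div_le_iff₀ hA0]
  linarith

end Pool.Agent.Q252.LR
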